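import Pool.Agent.W472.AC.Count
import Pool.Agent.TH456.TM.AlgDep
import Pool.Agent.TH456.TM.E

/-!
# Algebraic relations between the digits of a number after a few digits have been changed
-/

set_option autoImplicit false

namespace Pool.Agent.Q39.EC

open Finset Polynomial Module Filter Pool.Agent.W472.AC

/-- measure of linear independence of the powers of `x + S / N` -/
theorem meas_shift (x : ℝ) (r : ℕ) (w c : ℝ) (hw : 0 ≤ w) (hc : 0 < c) (hx : MeasP x r w c)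
    (N : ℕ) (hN : 1 ≤ N) (S : ℤ) (M : ℝ) (hNM : (N : ℝ) ≤ M) (hSM : |(S : ℝ)| ≤ M) :
    Meas (fun j : Fin (r + 1) => (x + S / N) ^ (j : ℕ)) w
      (c / (((((r : ℝ) + 1) * 2 ^ r * M ^ r) ^ w) * M ^ r)) := by
  intro a ha H hH haH
  have hN0 : (0 : ℝ) < N := by exact_mod_cast hN
  have hN1 : (1 : ℝ) ≤ N := by exact_mod_cast hN
  have hM1 : 1 ≤ M := hN1.trans hNM
  have hM0 : 0 < M := by linarith
  set P : ℤ[X] := ∑ j : Fin (r + 1), C (a j * (N : ℤ) ^ (r - (j : ℕ))) *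
    ((X + C S) ^ (j : ℕ)).comp (C (N : ℤ) * X) with hP
  have heval : ∀ t : ℝ, aeval t P = (N : ℝ) ^ r * ∑ j : Fin (r + 1), (a j : ℝ) * (t + S / N) ^ (j : ℕ) := by
    intro t
    rw [hP, map_sum, Finset.mul_sum]
    refine Finset.sum_congr rfl fun j _ => ?_
    have hj : (j : ℕ) ≤ r := by omega
    rw [map_mul, aeval_C, aeval_comp, map_pow]
    simp only [map_mul, map_add, aeval_X, aeval_C]
    have e1 : (N : ℝ) ^ r = (N : ℝ) ^ (r - (j : ℕ)) * (N : ℝ) ^ (j : ℕ) := by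
      rw [← pow_add]; congr 1; omega
    have e2 : ((N : ℝ) * t + S) = N * (t + S / N) := by field_simp
    simp only [algebraMap_int_eq, eq_intCast, Int.cast_mul, Int.cast_pow, Int.cast_natCast]
    rw [e2, mul_pow, e1]
    ring
  have hPne : P ≠ 0 := by
    intro h0
    apply ha
    have h1 : (pol a).map (Int.castRingHom ℝ) = 0 := by
      apply Polynomial.funext
      intro u
      have h2 := heval (u - S / N)
      rw [h0, map_zero, sub_add_cancel] at h2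
      have h3 : ∑ j : Fin (r + 1), (a j : ℝ) * u ^ (j : ℕ) = 0 := by
        rcases mul_eq_zero.1 h2.symm with h4 | h4
        · exact absurd h4 (by positivity)
        · exact h4
      rw [eval_zero]
      unfold pol
      rw [Polynomial.map_sum, eval_finsetSum]
      simpa using h3
    have h2 : pol a = 0 := by
      apply Polynomial.map_injective (Int.castRingHom ℝ) Int.cast_injective
      rw [h1, Polynomial.map_zero]
    exact pol_eq_zero a h2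
  have hPd : P.natDegree ≤ r := by
    rw [hP]
    refine natDegree_sum_le_of_forall_le _ _ fun j _ => ?_
    refine (natDegree_C_mul_le _ _).trans ?_
    refine natDegree_comp_le.trans ?_
    have h1 : ((X + C S : ℤ[X]) ^ (j : ℕ)).natDegree ≤ j := by
      refine natDegree_pow_le.trans ?_
      have : (X + C S : ℤ[X]).natDegree = 1 := natDegree_X_add_C S
      rw [this, mul_one]
    have h2 : (C (N : ℤ) * X : ℤ[X]).natDegree ≤ 1 := (natDegree_C_mul_le _ _).trans natDegree_X_le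
    calc ((X + C S : ℤ[X]) ^ (j : ℕ)).natDegree * (C (N : ℤ) * X : ℤ[X]).natDegree
        ≤ j * 1 := Nat.mul_le_mul h1 h2
      _ ≤ r := by omega
  have hPH : ∀ i, |(P.coeff i : ℝ)| ≤ (((r : ℝ) + 1) * 2 ^ r * M ^ r) * H := by
    intro i
    rw [hP, finsetSum_coeff]
    push_cast
    refine (Finset.abs_sum_le_sum_abs _ _).trans ?_
    have h1 : ∀ j : Fin (r + 1), |(((C (a j * (N : ℤ) ^ (r - (j : ℕ))) *
        ((X + C S) ^ (j : ℕ)).comp (C (N : ℤ) * X)).coeff i : ℤ) : ℝ)| ≤ 2 ^ r * M ^ r * H := by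
      intro j
      have hj : (j : ℕ) ≤ r := by omega
      rw [coeff_C_mul, comp_C_mul_X_coeff, coeff_X_add_C_pow]
      by_cases hij : i ≤ (j : ℕ)
      · push_cast
        rw [abs_mul, abs_mul, abs_mul, abs_mul, abs_pow, abs_pow, abs_pow,
          abs_of_pos hN0]
        have hch : |(((j : ℕ).choose i : ℕ) : ℝ)| ≤ 2 ^ r := by
          rw [abs_of_nonneg (Nat.cast_nonneg _)]
          have h2 : (j : ℕ).choose i ≤ 2 ^ (j : ℕ) := Nat.choose_le_two_pow _ _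
          have h3 : 2 ^ (j : ℕ) ≤ 2 ^ r := Nat.pow_le_pow_right (by norm_num) hj
          exact_mod_cast h2.trans h3
        have e1 : M ^ r = M ^ (r - (j : ℕ)) * M ^ ((j : ℕ) - i) * M ^ i := by
          rw [← pow_add, ← pow_add]; congr 1; omega
        have h4 : (N : ℝ) ^ (r - (j : ℕ)) ≤ M ^ (r - (j : ℕ)) := pow_le_pow_left₀ hN0.le hNM _
        have h5 : |(S : ℝ)| ^ ((j : ℕ) - i) ≤ M ^ ((j : ℕ) - i) :=
          pow_le_pow_left₀ (abs_nonneg _) hSM _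
        have h6 : (N : ℝ) ^ i ≤ M ^ i := pow_le_pow_left₀ hN0.le hNM _
        calc |(a j : ℝ)| * (N : ℝ) ^ (r - (j : ℕ)) * (|(S : ℝ)| ^ ((j : ℕ) - i) *
              |(((j : ℕ).choose i : ℕ) : ℝ)| * (N : ℝ) ^ i)
            ≤ H * M ^ (r - (j : ℕ)) * (M ^ ((j : ℕ) - i) * 2 ^ r * M ^ i) := by
              gcongr
              exact haH j
          _ = 2 ^ r * M ^ r * H := by rw [e1]; ring
      · rw [Nat.choose_eq_zero_of_lt (by omega)]
        simp only [Nat.cast_zero, mul_zero, zero_mul, Int.cast_zero, abs_zero]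
        positivity
    refine (Finset.sum_le_sum fun j _ => h1 j).trans ?_
    rw [Finset.sum_const, Finset.card_univ, Fintype.card_fin, nsmul_eq_mul]
    push_cast
    exact le_of_eq (by ring)
  have hK1 : 1 ≤ ((r : ℝ) + 1) * 2 ^ r * M ^ r := by
    have h1 : (1 : ℝ) ≤ (r : ℝ) + 1 := by linarith [(Nat.cast_nonneg r : (0 : ℝ) ≤ r)]
    have h2 : (1 : ℝ) ≤ 2 ^ r := one_le_pow₀ (by norm_num)
    have h3 : (1 : ℝ) ≤ M ^ r := one_le_pow₀ hM1
    nlinarith [mul_le_mul h1 h2 (by norm_num) (by linarith : (0:ℝ) ≤ (r : ℝ) + 1),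
      mul_le_mul (mul_le_mul h1 h2 (by norm_num) (by linarith : (0:ℝ) ≤ (r : ℝ) + 1)) h3 (by norm_num)
        (by positivity)]
  set K : ℝ := ((r : ℝ) + 1) * 2 ^ r * M ^ r with hK
  have hK0 : 0 < K := by linarith
  have h1 := hx P hPne hPd (K * H) (by nlinarith) hPH
  rw [heval, Real.mul_rpow hK0.le (by linarith), abs_mul,
    abs_of_pos (by positivity : (0 : ℝ) < (N : ℝ) ^ r)] at h1
  rw [div_le_iff₀ (by positivity)]
  have h2 : (N : ℝ) ^ r ≤ M ^ r := pow_le_pow_left₀ hN0.le hNM _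
  calc c ≤ K ^ w * H ^ w * ((N : ℝ) ^ r * |∑ j : Fin (r + 1), (a j : ℝ) * (x + S / N) ^ (j : ℕ)|) := h1
    _ ≤ K ^ w * H ^ w * (M ^ r * |∑ j : Fin (r + 1), (a j : ℝ) * (x + S / N) ^ (j : ℕ)|) := by
        gcongr
    _ = _ := by ring

/-- the polynomial `s_1 X + ⋯ + s_L X^L` -/
noncomputable def SZ (s : ℕ → ℤ) (L : ℕ) : ℤ[X] := ∑ i ∈ Icc 1 L, C (s i) * X ^ i

lemma SZ_coeff_nonneg (s : ℕ → ℤ) (hs : ∀ i, 0 ≤ s i) (L i : ℕ) : 0 ≤ (SZ s L).coeff i := by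
  unfold SZ
  rw [finsetSum_coeff]
  refine Finset.sum_nonneg fun l _ => ?_
  rw [coeff_C_mul, coeff_X_pow]
  split_ifs
  · rw [mul_one]; exact hs l
  · rw [mul_zero]

lemma SZ_eval_one (b : ℕ) (s : ℕ → ℤ) (hs : ∀ i, 0 ≤ s i ∧ s i < b) (L : ℕ) :
    0 ≤ (SZ s L).eval 1 ∧ (SZ s L).eval 1 ≤ b * (L + 1) := by
  unfold SZ
  rw [eval_finsetSum]
  simp only [eval_mul, eval_C, eval_pow, eval_X, one_pow, mul_one]
  refine ⟨Finset.sum_nonneg fun l _ => (hs l).1, ?_⟩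
  calc ∑ i ∈ Icc 1 L, s i ≤ ∑ _i ∈ Icc 1 L, (b : ℤ) :=
        Finset.sum_le_sum fun i _ => (hs i).2.le
    _ = L * b := by rw [Finset.sum_const, Nat.card_Icc, nsmul_eq_mul]; simp
    _ ≤ b * (L + 1) := by nlinarith [(Int.natCast_nonneg b : (0 : ℤ) ≤ b)]

lemma SZ_pow_coeff (b : ℕ) (hb : 1 ≤ b) (s : ℕ → ℤ) (hs : ∀ i, 0 ≤ s i ∧ s i < b)
    (L r j : ℕ) (hj : j ≤ r) (i : ℕ) :
    |((SZ s L) ^ j).coeff i| ≤ (((b * (L + 1)) ^ r : ℕ) : ℤ) := by
  have h0 := coeff_pow_nonneg (SZ s L) (SZ_coeff_nonneg s (fun i => (hs i).1) L) j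
  rw [abs_of_nonneg (h0 i)]
  refine (coeff_le_eval_one _ h0 i).trans ?_
  rw [eval_pow]
  obtain ⟨h1, h2⟩ := SZ_eval_one b s hs L
  have h3 : (1 : ℤ) ≤ b * (L + 1) := by
    have : (1 : ℤ) ≤ b := by exact_mod_cast hb
    nlinarith [(Int.natCast_nonneg L : (0 : ℤ) ≤ L)]
  calc (SZ s L).eval 1 ^ j ≤ ((b : ℤ) * (L + 1)) ^ j := pow_le_pow_left₀ h1 h2 j
    _ ≤ ((b : ℤ) * (L + 1)) ^ r := pow_le_pow_right₀ h3 hj
    _ = _ := by push_cast; ring

lemma ev_SZ (z : ℝ) (s : ℕ → ℤ) (L : ℕ) : ev z (SZ s L) = ∑ i ∈ Icc 1 L, (s i : ℝ) * z ^ i := by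
  unfold SZ
  rw [ev_sum]
  exact Finset.sum_congr rfl fun i _ => ev_C_mul_X_pow z _ _

lemma ev_SZ_succ (z : ℝ) (s : ℕ → ℤ) (L : ℕ) :
    ev z (SZ s (L + 1)) = ev z (SZ s L) + s (L + 1) * z ^ (L + 1) := by
  rw [ev_SZ, ev_SZ, Finset.sum_Icc_succ_top (by omega)]

lemma ev_SZ_nonneg (b : ℕ) (s : ℕ → ℤ) (hs : ∀ i, 0 ≤ s i ∧ s i < b) (L : ℕ) :
    0 ≤ ev (1 / b) (SZ s L) := by
  rw [ev_SZ]
  refine Finset.sum_nonneg fun i _ => mul_nonneg ?_ (by positivity)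
  exact_mod_cast (hs i).1

lemma ev_SZ_le (b : ℕ) (hb : 1 ≤ b) (s : ℕ → ℤ) (hs : ∀ i, 0 ≤ s i ∧ s i < b) (L : ℕ) :
    ev (1 / b) (SZ s L) ≤ 1 - (1 / b) ^ L := by
  have hb0 : (0 : ℝ) < b := by exact_mod_cast hb
  induction L with
  | zero => rw [ev_SZ]; simp
  | succ L ih =>
    rw [ev_SZ_succ]
    have h1 : ((s (L + 1) : ℤ) : ℝ) ≤ b - 1 := by
      have := (hs (L + 1)).2
      have h2 : s (L + 1) ≤ (b : ℤ) - 1 := by omega
      exact_mod_cast h2
    have h2 : (s (L + 1) : ℝ) * (1 / b) ^ (L + 1) ≤ (b - 1) * (1 / b) ^ (L + 1) :=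
      mul_le_mul_of_nonneg_right h1 (by positivity)
    have h3 : ((b : ℝ) - 1) * (1 / b) ^ (L + 1) = (1 / b) ^ L - (1 / b) ^ (L + 1) := by
      rw [pow_succ]; field_simp
    linarith

/-- the number whose digits are `s` up to the place `I`, followed by those of `x` -/
lemma close (x : ℝ) (b : ℕ) (hb : 1 ≤ b) (s : ℕ → ℤ) (I : ℕ) (y : ℝ)
    (hy : y = ev (1 / b) (SZ s I) + Int.fract (x * (b : ℝ) ^ I) * (1 / b) ^ I) :
    ∀ T, I ≤ T → (∀ i, I < i → i ≤ T → s i = digit b x i) →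
      y - ev (1 / b) (SZ s T) = Int.fract (x * (b : ℝ) ^ T) * (1 / b) ^ T := by
  have hb0 : (0 : ℝ) < b := by exact_mod_cast hb
  intro T hT
  induction T, hT using Nat.le_induction with
  | base => intro _; rw [hy]; ring
  | succ T hT ih =>
    intro hs
    have h1 := ih fun i h2 h3 => hs i h2 (by omega)
    rw [ev_SZ_succ, hs (T + 1) (by omega) le_rfl, digit_eq x b hb T]
    have h2 : y - (ev (1 / b) (SZ s T) + ((⌊x * (b : ℝ) ^ (T + 1)⌋ - b * ⌊x * (b : ℝ) ^ T⌋ : ℤ) : ℝ) *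
        (1 / b) ^ (T + 1)) = (y - ev (1 / b) (SZ s T)) -
        ((⌊x * (b : ℝ) ^ (T + 1)⌋ : ℝ) - b * ⌊x * (b : ℝ) ^ T⌋) * (1 / b) ^ (T + 1) := by
      push_cast; ring
    rw [h2, h1]
    unfold Int.fract
    rw [pow_succ (1 / (b : ℝ)) T]
    field_simp
    ring

lemma SZ_trunc (s : ℕ → ℤ) (T L : ℕ) (hTL : T ≤ L) (j : ℕ) :
    (X : ℤ[X]) ^ (T + 1) ∣ (SZ s L) ^ j - (SZ s T) ^ j := by
  have h1 : (X : ℤ[X]) ^ (T + 1) ∣ SZ s L - SZ s T := by
    induction L, hTL using Nat.le_induction with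
    | base => simp
    | succ L hL ih =>
      have e : SZ s (L + 1) - SZ s T = (SZ s L - SZ s T) + C (s (L + 1)) * X ^ (L + 1) := by
        unfold SZ
        rw [Finset.sum_Icc_succ_top (by omega)]
        ring
      rw [e]
      refine dvd_add ih (Dvd.dvd.mul_left (pow_dvd_pow _ (by omega)) _)
  exact h1.trans (sub_dvd_pow_sub_pow _ _ _)

end Pool.Agent.Q39.EC
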