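import Pool.Agent.Q39.EC.Core

/-!
# Growth of the algebraic complexity, with changed digits
-/

set_option autoImplicit false

namespace Pool.Agent.Q39.EC

open Finset Polynomial Module Filter Pool.Agent.W472.AC

lemma log_absorb (a2 T : ℝ) (ha2 : 0 < a2) (hT : 0 ≤ T) :
    a2 * Real.log (T + 1) ≤ (T + 1) / 4 + a2 * |Real.log (4 * a2)| := by
  have h1 : Real.log ((T + 1) / (4 * a2)) ≤ (T + 1) / (4 * a2) - 1 :=
    Real.log_le_sub_one_of_pos (by positivity)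
  rw [Real.log_div (by positivity) (by positivity)] at h1
  have h2 : Real.log (T + 1) ≤ (T + 1) / (4 * a2) + |Real.log (4 * a2)| := by
    have := le_abs_self (Real.log (4 * a2))
    linarith
  calc a2 * Real.log (T + 1) ≤ a2 * ((T + 1) / (4 * a2) + |Real.log (4 * a2)|) :=
        mul_le_mul_of_nonneg_left h2 ha2.le
    _ = (T + 1) / 4 + a2 * |Real.log (4 * a2)| := by field_simp

/-- one step: after the last changed place `I`, the relation can hold up to a place `T` of order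
`k + I` only -/
theorem step (x : ℝ) (r : ℕ) (w c : ℝ) (hw : 0 ≤ w) (hc : 0 < c) (hx : MeasP x r w c) :
    ∃ C1 : ℕ, ∀ b : ℕ, 2 ≤ b → ∀ s : ℕ → ℤ, (∀ i, 0 ≤ s i ∧ s i < b) → ∀ I T L : ℕ, I ≤ T → T ≤ L →
      (∀ i, I < i → i ≤ T → s i = digit b x i) → ∀ (k : ℕ) (h : Fin (r + 1) → ℚ[X]), h ≠ 0 →
      (∀ j, (h j).natDegree ≤ k) →
      X ^ (L + 1) ∣ ∑ j, h j * ((SZ s L) ^ (j : ℕ)).map (Int.castRingHom ℚ) →
      T ≤ C1 * (k + I + 1) := by
  obtain ⟨κ, hκ⟩ : ∃ κ : ℕ, κ = 2 * (r + 1) := ⟨_, rfl⟩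
  obtain ⟨a1, ha1⟩ : ∃ a1 : ℝ, a1 = (1 + w) * (κ * r) + r := ⟨_, rfl⟩
  obtain ⟨a2, ha2⟩ : ∃ a2 : ℝ, a2 = (1 + w) * (κ * (r + 1)) + r + 1 := ⟨_, rfl⟩
  obtain ⟨a3, ha3⟩ : ∃ a3 : ℝ, a3 = (1 + w) * (κ * Real.log (r + 1)) + (1 + w) * Real.log 2
    + Real.log (r + 1) := ⟨_, rfl⟩
  obtain ⟨a4, ha4⟩ : ∃ a4 : ℝ, a4 = |Real.log c| + w * (Real.log (r + 1) + r * Real.log 2) +
    (w + 1) * (r * Real.log (|x| + 2)) := ⟨_, rfl⟩
  have hlm : 0 ≤ Real.log ((r : ℝ) + 1) :=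
    Real.log_nonneg (by linarith [(Nat.cast_nonneg r : (0 : ℝ) ≤ r)])
  have hl2 : 0 ≤ Real.log 2 := Real.log_nonneg (by norm_num)
  have hlx : 0 ≤ Real.log (|x| + 2) := Real.log_nonneg (by linarith [abs_nonneg x])
  have ha10 : 0 ≤ a1 := by rw [ha1]; positivity
  have ha20 : 0 < a2 := by rw [ha2]; positivity
  have ha30 : 0 ≤ a3 := by rw [ha3]; positivity
  have ha40 : 0 ≤ a4 := by rw [ha4]; positivity
  obtain ⟨a5, ha5⟩ : ∃ a5 : ℝ, a5 = a3 + a4 + a2 * |Real.log (4 * a2)| := ⟨_, rfl⟩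
  have ha50 : 0 ≤ a5 := by rw [ha5]; positivity
  obtain ⟨C1, hC1⟩ := exists_nat_gt (4 * (1 + w) + 2 * ((w + 1) * r) + (2 * a1 + 1 + 4 * a5) + 2)
  refine ⟨C1, fun b hb s hs I T L hIT hTL hsd k h hne hkd hrel => ?_⟩
  have hbR : (2 : ℝ) ≤ b := by exact_mod_cast hb
  have hb0 : (0 : ℝ) < b := by linarith
  have hb1 : 1 ≤ b := by omega
  have hk0 : (0 : ℝ) ≤ k := Nat.cast_nonneg _
  have hI0 : (0 : ℝ) ≤ I := Nat.cast_nonneg _
  have hT0 : (0 : ℝ) ≤ T := Nat.cast_nonneg _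
  have hr0 : (0 : ℝ) ≤ r := Nat.cast_nonneg _
  have hlb : 1 / 2 < Real.log b := by
    have h1 := Real.log_le_log (by norm_num) hbR
    have h2 := Real.log_two_gt_d9
    linarith
  -- it is enough to bound `T` by reals
  suffices hgoal : (T : ℝ) ≤ (4 * (1 + w) + 2 * ((w + 1) * r) + (2 * a1 + 1 + 4 * a5) + 2) *
      (k + I + 1) by
    have h1 : (T : ℝ) ≤ C1 * ((k : ℝ) + I + 1) :=
      hgoal.trans (mul_le_mul_of_nonneg_right hC1.le (by positivity))
    exact_mod_cast h1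
  by_cases hKL : k + k + 1 ≤ T
  swap
  · have h1 : (T : ℝ) ≤ 2 * k := by
      have : T ≤ 2 * k := by omega
      exact_mod_cast this
    have h2 : 0 ≤ 4 * (1 + w) + 2 * ((w + 1) * r) + (2 * a1 + 1 + 4 * a5) := by positivity
    nlinarith [mul_nonneg h2 (by positivity : (0 : ℝ) ≤ k + I + 1)]
  -- the number `y`
  obtain ⟨y, hy⟩ : ∃ y : ℝ, y = ev (1 / b) (SZ s I) + Int.fract (x * (b : ℝ) ^ I) * (1 / b) ^ I :=
    ⟨_, rfl⟩
  have hz0 : (0 : ℝ) < (1 / b) ^ I := by positivity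
  have hy0 : 0 ≤ y := by
    rw [hy]
    have := ev_SZ_nonneg b s hs I
    have h2 := Int.fract_nonneg (x * (b : ℝ) ^ I)
    positivity
  have hy1 : y ≤ 1 := by
    rw [hy]
    have h1 := ev_SZ_le b hb1 s hs I
    have h2 := (Int.fract_lt_one (x * (b : ℝ) ^ I)).le
    nlinarith
  obtain ⟨S, hS⟩ : ∃ S : ℤ, S = ∑ i ∈ Icc 1 I, s i * (b : ℤ) ^ (I - i) - ⌊x * (b : ℝ) ^ I⌋ := ⟨_, rfl⟩
  have hyS : y = x + S / ((b ^ I : ℕ) : ℝ) := by
    rw [hy, hS, ev_SZ]
    push_cast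
    have hbI : (b : ℝ) ^ I ≠ 0 := by positivity
    have e1 : ∑ i ∈ Icc 1 I, (s i : ℝ) * (1 / b) ^ i =
        (∑ i ∈ Icc 1 I, (s i : ℝ) * (b : ℝ) ^ (I - i)) / (b : ℝ) ^ I := by
      rw [Finset.sum_div]
      refine Finset.sum_congr rfl fun i hi => ?_
      rw [mem_Icc] at hi
      have e2 : (b : ℝ) ^ I = (b : ℝ) ^ (I - i) * (b : ℝ) ^ i := by
        rw [← pow_add]; congr 1; omega
      rw [e2, div_pow, one_pow]
      field_simp
    rw [e1]
    unfold Int.fract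
    rw [div_pow, one_pow]
    field_simp
    ring
  obtain ⟨M, hM⟩ : ∃ M : ℝ, M = (|x| + 2) * (b : ℝ) ^ I := ⟨_, rfl⟩
  have hbI1 : (1 : ℝ) ≤ (b : ℝ) ^ I := one_le_pow₀ (by linarith)
  have hM1 : 1 ≤ M := by rw [hM]; nlinarith [abs_nonneg x]
  have hM0 : 0 < M := by linarith
  have hSM : |(S : ℝ)| ≤ M := by
    have e1 : (S : ℝ) = (y - x) * (b : ℝ) ^ I := by
      rw [hyS]; push_cast; field_simp; ring
    rw [e1, abs_mul, abs_of_pos (by positivity : (0 : ℝ) < (b : ℝ) ^ I), hM]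
    refine mul_le_mul_of_nonneg_right ?_ (by positivity)
    calc |y - x| ≤ |y| + |x| := abs_sub _ _
      _ ≤ |x| + 2 := by rw [abs_of_nonneg hy0]; linarith
  have hmeas := meas_shift x r w c hw hc hx (b ^ I) (Nat.one_le_pow _ _ hb1) S M
    (by push_cast; rw [hM]; nlinarith [abs_nonneg x]) hSM
  rw [← hyS] at hmeas
  obtain ⟨c', hc'⟩ : ∃ c' : ℝ, c' = c / (((((r : ℝ) + 1) * 2 ^ r * M ^ r) ^ w) * M ^ r) := ⟨_, rfl⟩
  rw [← hc'] at hmeas
  have hc'0 : 0 < c' := by rw [hc']; positivity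
  -- the relation up to the place `T`
  have hrelT : X ^ (T + 1) ∣ ∑ j : Fin (r + 1), h j * ((SZ s T) ^ (j : ℕ)).map (Int.castRingHom ℚ) := by
    have h1 : X ^ (T + 1) ∣ ∑ j : Fin (r + 1), h j * ((SZ s L) ^ (j : ℕ)).map (Int.castRingHom ℚ) :=
      (pow_dvd_pow _ (by omega)).trans hrel
    have h2 : X ^ (T + 1) ∣ ∑ j : Fin (r + 1), h j * (((SZ s L) ^ (j : ℕ)).map (Int.castRingHom ℚ) -
        ((SZ s T) ^ (j : ℕ)).map (Int.castRingHom ℚ)) := by
      refine Finset.dvd_sum fun j _ => Dvd.dvd.mul_left ?_ _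
      have h3 := Polynomial.map_dvd (Int.castRingHom ℚ) (SZ_trunc s T L hTL j)
      rwa [Polynomial.map_pow, map_X, Polynomial.map_sub] at h3
    have e : ∑ j : Fin (r + 1), h j * ((SZ s T) ^ (j : ℕ)).map (Int.castRingHom ℚ) =
        ∑ j : Fin (r + 1), h j * ((SZ s L) ^ (j : ℕ)).map (Int.castRingHom ℚ) -
        ∑ j : Fin (r + 1), h j * (((SZ s L) ^ (j : ℕ)).map (Int.castRingHom ℚ) -
        ((SZ s T) ^ (j : ℕ)).map (Int.castRingHom ℚ)) := by
      rw [← Finset.sum_sub_distrib]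
      refine Finset.sum_congr rfl fun j _ => ?_
      ring
    rw [e]
    exact dvd_sub h1 h2
  have hclose := close x b hb1 s I y hy T hIT hsd
  have hevn := ev_SZ_nonneg b s hs T
  have hzT : (0 : ℝ) < (1 / (b : ℝ)) ^ T := by positivity
  have hevl : ev (1 / b) (SZ s T) ≤ 1 := by
    have := ev_SZ_le b hb1 s hs T
    linarith
  have hyG : ∀ j : Fin (r + 1), |y ^ (j : ℕ) - ev (1 / (b : ℝ)) ((SZ s T) ^ (j : ℕ))| ≤
      (((b * (T + 1)) ^ r : ℕ) : ℝ) * (1 / b) ^ T := by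
    intro j
    have hev : ev (1 / (b : ℝ)) ((SZ s T) ^ (j : ℕ)) = (ev (1 / (b : ℝ)) (SZ s T)) ^ (j : ℕ) := by
      unfold ev; rw [Polynomial.map_pow, eval_pow]
    rw [hev]
    refine (pow_sub_pow_le _ _ hy0 hy1 hevn hevl j).trans ?_
    rw [hclose]
    have h5 := Int.fract_nonneg (x * (b : ℝ) ^ T)
    have h6 := (Int.fract_lt_one (x * (b : ℝ) ^ T)).le
    rw [abs_of_nonneg (by positivity)]
    have h7 : ((j : ℕ) : ℝ) ≤ (((b * (T + 1)) ^ r : ℕ) : ℝ) := by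
      have : (j : ℕ) ≤ (b * (T + 1)) ^ r := by
        have e1 : (j : ℕ) ≤ r := by omega
        have e2 : r < 2 ^ r := Nat.lt_two_pow_self
        have e3 : 2 ^ r ≤ (b * (T + 1)) ^ r := Nat.pow_le_pow_left (by nlinarith) r
        omega
      exact_mod_cast this
    refine mul_le_mul h7 ?_ (by positivity) (by positivity)
    nlinarith
  have hB1 : 1 ≤ (b * (T + 1)) ^ r := Nat.one_le_pow _ _ (by positivity)
  have hκδ : (r + 1) * (k + k + 1) ≤ κ * (k + 1) := by rw [hκ]; nlinarith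
  have hmain := main_ineq r k k T ((b * (T + 1)) ^ r) κ b hb hB1 (fun j => y ^ (j : ℕ)) w c'
    (((b * (T + 1)) ^ r : ℕ) : ℝ) hmeas (fun j => (SZ s T) ^ (j : ℕ))
    (fun j i => SZ_pow_coeff b hb1 s hs T r j (by omega) i) hyG h hne hkd hrelT hκδ _ rfl
  have hlog := log_ineq r k k T κ b hb w c' hw hc'0 hKL _ rfl hmain
  -- the size of `c'`
  have hlogM : Real.log M = Real.log (|x| + 2) + I * Real.log b := by
    rw [hM, Real.log_mul (by positivity) (by positivity), Real.log_pow]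
  have hlogc : |Real.log c'| ≤ a4 + (w + 1) * (r * (I * Real.log b)) := by
    have e1 : Real.log c' = Real.log c - (w * (Real.log (r + 1) + r * Real.log 2 + r * Real.log M) +
        r * Real.log M) := by
      rw [hc', Real.log_div hc.ne' (by positivity), Real.log_mul (by positivity) (by positivity),
        Real.log_rpow (by positivity), Real.log_mul (by positivity) (by positivity),
        Real.log_mul (by positivity) (by positivity), Real.log_pow, Real.log_pow]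
    have hM00 : 0 ≤ Real.log M := Real.log_nonneg hM1
    have h1 : 0 ≤ w * (Real.log (r + 1) + r * Real.log 2 + r * Real.log M) + r * Real.log M := by
      positivity
    rw [e1]
    calc |Real.log c - (w * (Real.log (r + 1) + r * Real.log 2 + r * Real.log M) +
        r * Real.log M)| ≤ |Real.log c| + |w * (Real.log (r + 1) + r * Real.log 2 +
          r * Real.log M) + r * Real.log M| := abs_sub _ _
      _ = a4 + (w + 1) * (r * (I * Real.log b)) := by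
          rw [abs_of_nonneg h1, ha4, hlogM]; ring
  have habs := log_absorb a2 T ha20 hT0
  rw [← ha1, ← ha2] at hlog
  have hkk : ((k + k : ℕ) : ℝ) = 2 * k := by push_cast; ring
  rw [hkk] at hlog
  have h1 : (T : ℝ) * Real.log b ≤ (1 + w) * (2 * k * Real.log b) + a1 * Real.log b +
      ((T + 1) / 4 + a5) + (w + 1) * (r * (I * Real.log b)) := by
    rw [ha5, ha3]
    linarith
  have h2 : ((T : ℝ) + 1) / 4 + a5 ≤ ((T + 1) / 2 + 2 * a5) * Real.log b := by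
    have : 0 ≤ ((T : ℝ) + 1) / 2 + 2 * a5 := by positivity
    nlinarith
  have h3 : (T : ℝ) * Real.log b ≤ ((1 + w) * (2 * k) + a1 + ((T + 1) / 2 + 2 * a5) +
      (w + 1) * (r * I)) * Real.log b := by
    linarith
  have h4 : (T : ℝ) ≤ (1 + w) * (2 * k) + a1 + ((T + 1) / 2 + 2 * a5) + (w + 1) * (r * I) :=
    le_of_mul_le_mul_right h3 (by linarith)
  have h5 : (T : ℝ) ≤ 4 * (1 + w) * k + 2 * ((w + 1) * r) * I + (2 * a1 + 1 + 4 * a5) := by
    linarith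
  have p1 : 0 ≤ 4 * (1 + w) := by positivity
  have p2 : 0 ≤ 2 * ((w + 1) * r) := by positivity
  have p3 : 0 ≤ 2 * a1 + 1 + 4 * a5 := by positivity
  nlinarith [mul_nonneg p1 hI0, mul_nonneg p2 hk0, mul_nonneg p3 hk0, mul_nonneg p3 hI0]

/-- **Main growth theorem.** -/
theorem grow (x : ℝ) (r : ℕ) (w c : ℝ) (hw : 0 ≤ w) (hc : 0 < c) (hx : MeasP x r w c) :
    ∃ C : ℕ, ∀ b : ℕ, 2 ≤ b → ∀ s : ℕ → ℤ, (∀ i, 0 ≤ s i ∧ s i < b) → ∀ L k : ℕ,
      ∀ h : Fin (r + 1) → ℚ[X], h ≠ 0 → (∀ j, (h j).natDegree ≤ k) →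
      X ^ (L + 1) ∣ ∑ j, h j * ((SZ s L) ^ (j : ℕ)).map (Int.castRingHom ℚ) →
      ∀ n T : ℕ, T ≤ L → #{i ∈ Icc 1 T | s i ≠ digit b x i} ≤ n →
        T + k + 1 ≤ C ^ (n + 1) * (k + 1) := by
  obtain ⟨C1, hC1⟩ := step x r w c hw hc hx
  refine ⟨C1 + 2, fun b hb s hs L k h hne hkd hrel => ?_⟩
  have hbase : ∀ T, T ≤ L → #{i ∈ Icc 1 T | s i ≠ digit b x i} = 0 →
      T + k + 1 ≤ (C1 + 2) * (k + 1) := by
    intro T hT h0
    rw [Finset.card_eq_zero, Finset.filter_eq_empty_iff] at h0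
    have h1 := hC1 b hb s hs 0 T L (Nat.zero_le _) hT (fun i h1 h2 => by
      have := h0 (x := i) (by rw [mem_Icc]; omega)
      push Not at this
      exact this) k h hne hkd hrel
    nlinarith
  intro n
  induction n with
  | zero =>
    intro T hT h0
    rw [zero_add, pow_one]
    exact hbase T hT (by omega)
  | succ n ih =>
    intro T hT hcard
    have hpow : 1 ≤ (C1 + 2) ^ (n + 1) := Nat.one_le_pow _ _ (by omega)
    rcases (filter (fun i => s i ≠ digit b x i) (Icc 1 T)).eq_empty_or_nonempty with he | hne'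
    · have h1 := hbase T hT (by rw [he]; rfl)
      calc T + k + 1 ≤ (C1 + 2) * (k + 1) := h1
        _ ≤ (C1 + 2) ^ (n + 1 + 1) * (k + 1) := by
            rw [pow_succ]
            have : (C1 + 2) ≤ (C1 + 2) ^ (n + 1) * (C1 + 2) := by nlinarith
            exact Nat.mul_le_mul_right _ this
    · obtain ⟨p, hp⟩ : ∃ p, p = (filter (fun i => s i ≠ digit b x i) (Icc 1 T)).max' hne' := ⟨_, rfl⟩
      have hpm := Finset.max'_mem _ hne'
      rw [← hp, mem_filter, mem_Icc] at hpm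
      obtain ⟨⟨hp1, hpT⟩, hpne⟩ := hpm
      have hlt : #{i ∈ Icc 1 (p - 1) | s i ≠ digit b x i} < #{i ∈ Icc 1 T | s i ≠ digit b x i} := by
        apply Finset.card_lt_card
        rw [Finset.ssubset_iff_of_subset]
        · refine ⟨p, by rw [mem_filter, mem_Icc]; exact ⟨⟨hp1, hpT⟩, hpne⟩, ?_⟩
          rw [mem_filter, mem_Icc]
          omega
        · intro i hi
          rw [mem_filter, mem_Icc] at hi ⊢
          exact ⟨⟨hi.1.1, by omega⟩, hi.2⟩
      have h1 := ih (p - 1) (by omega) (by omega)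
      have h2 := hC1 b hb s hs p T L hpT hT (fun i h3 h4 => by
        by_contra hcon
        have h5 := Finset.le_max' _ i (show i ∈ filter (fun i => s i ≠ digit b x i) (Icc 1 T) by
          rw [mem_filter, mem_Icc]; exact ⟨⟨by omega, h4⟩, hcon⟩)
        rw [← hp] at h5
        omega) k h hne hkd hrel
      have h3 : p + k ≤ (C1 + 2) ^ (n + 1) * (k + 1) := by omega
      have h4 : T + k + 1 ≤ (C1 + 1) * (k + p + 1) := by nlinarith
      have h5 : k + p + 1 ≤ (C1 + 2) ^ (n + 1) * (k + 1) + 1 := by omega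
      have h6 : C1 + 1 ≤ (C1 + 2) ^ (n + 1) * (k + 1) := by
        have e1 : C1 + 2 ≤ (C1 + 2) ^ (n + 1) := by
          rw [pow_succ]
          have : 1 ≤ (C1 + 2) ^ n := Nat.one_le_pow _ _ (by omega)
          nlinarith
        nlinarith
      calc T + k + 1 ≤ (C1 + 1) * (k + p + 1) := h4
        _ ≤ (C1 + 1) * ((C1 + 2) ^ (n + 1) * (k + 1) + 1) := Nat.mul_le_mul_left _ h5
        _ = (C1 + 1) * ((C1 + 2) ^ (n + 1) * (k + 1)) + (C1 + 1) := by ring
        _ ≤ (C1 + 1) * ((C1 + 2) ^ (n + 1) * (k + 1)) + (C1 + 2) ^ (n + 1) * (k + 1) := by omega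
        _ = (C1 + 2) ^ (n + 1 + 1) * (k + 1) := by rw [pow_succ]; ring

end Pool.Agent.Q39.EC
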